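import Pool.Agent.NPC.Defs

/-!
# A single vehicle on a path, with release and handling times: the decision problem
-/

namespace Pool.Agent.Q321.VS

/-- The data of a vertex of the path: the release time and the handling time of its job, the
travel time from this vertex to the next one of the line, and the travel time from the next one
back to this one (the last two are meaningless for the last vertex of the line). -/
abbrev Vx : Type := ℕ × ℕ × ℕ × ℕ

/-- An instance of the decision problem: the list of the vertices of the path, in the order along
the line, the index of the start vertex (counted from `0`) and the bound `K`. -/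
abbrev Inst : Type := List Vx × ℕ × ℕ

/-- The release time of the job at the `i`-th vertex. -/
def rel (x : Inst) (i : ℕ) : ℕ := (x.1.getD i (0, 0, 0, 0)).1

/-- The handling time of the job at the `i`-th vertex. -/
def han (x : Inst) (i : ℕ) : ℕ := (x.1.getD i (0, 0, 0, 0)).2.1

/-- The travel time from vertex `i` to vertex `i + 1`. -/
def fwd (x : Inst) (i : ℕ) : ℕ := (x.1.getD i (0, 0, 0, 0)).2.2.1

/-- The travel time from vertex `i + 1` to vertex `i`. -/
def bwd (x : Inst) (i : ℕ) : ℕ := (x.1.getD i (0, 0, 0, 0)).2.2.2

/-- The travel time from vertex `i` to vertex `j`: the sum of the travel times of the edges
between them, in the direction of the travel. (One of the two sums is empty.) -/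
def travel (x : Inst) (i j : ℕ) : ℕ :=
  (∑ k ∈ Finset.Ico i j, fwd x k) + ∑ k ∈ Finset.Ico j i, bwd x k

/-- The time at which the vehicle is back at the start vertex when it is at vertex `p` at time `t`
and then processes the jobs of the list, in the order of the list: it goes to the vertex `j` of the
first job, waits until the release time, if necessary, processes the job, and so on; after the
last job it returns to the start vertex. -/
def finish (x : Inst) : ℕ → ℕ → List ℕ → ℕ
  | t, p, [] => t + travel x p x.2.1
  | t, p, j :: π => finish x (max (t + travel x p j) (rel x j) + han x j) j π

/-- The completion time of the schedule `π`: the vehicle is at the start vertex at time `0`. -/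
def completion (x : Inst) (π : List ℕ) : ℕ := finish x 0 x.2.1 π

/-- **The decision problem** (with positive handling times): all handling times are positive, and
some permutation of all the jobs has completion time at most `K`. -/
def PathVSP (x : Inst) : Prop :=
  x.2.1 < x.1.length ∧ (∀ v ∈ x.1, 0 < v.2.1) ∧
    ∃ π : List ℕ, π.Perm (List.range x.1.length) ∧ completion x π ≤ x.2.2

/-- The special instances: travel times are positive and symmetric, and the start vertex is an
end of the line. -/
def Special (x : Inst) : Prop :=
  (∀ v ∈ x.1, 0 < v.2.2.1 ∧ v.2.2.1 = v.2.2.2) ∧ x.2.1 = 0

end Pool.Agent.Q321.VS
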