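import Mathlib
import Pool.Agent.Q321.VS.Defs

/-!
# Bounds for the completion time
-/

namespace Pool.Agent.Q321.VS

/-- the part of a list behind the first occurrence of `v` -/
def aft (v : ℕ) : List ℕ → List ℕ
  | [] => []
  | u :: L => if u = v then L else aft v L

theorem aft_cons (v u : ℕ) (L : List ℕ) : aft v (u :: L) = if u = v then L else aft v L := rfl

theorem aft_sublist (v : ℕ) (L : List ℕ) : (aft v L).Sublist L := by
  induction L with
  | nil => exact List.Sublist.refl _
  | cons u L ih =>
    unfold aft
    split_ifs
    · exact List.sublist_cons_self u L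
    · exact ih.trans (List.sublist_cons_self u L)

theorem mem_of_mem_aft {u v : ℕ} {L : List ℕ} (h : u ∈ aft v L) : u ∈ L :=
  (aft_sublist v L).subset h

theorem aft_of_notMem {v : ℕ} {L : List ℕ} (h : v ∉ L) : aft v L = [] := by
  induction L with
  | nil => rfl
  | cons u L ih =>
    rw [List.mem_cons, not_or] at h
    unfold aft
    rw [if_neg (fun e => h.1 e.symm)]
    exact ih h.2

theorem mem_of_aft_mem {u v : ℕ} {L : List ℕ} (h : u ∈ aft v L) : v ∈ L := by
  by_contra hc
  rw [aft_of_notMem hc] at h
  exact absurd h (List.not_mem_nil)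

theorem aft_aft {u v : ℕ} {L : List ℕ} (hL : L.Nodup) (h : v ∈ aft u L) :
    aft v (aft u L) = aft v L := by
  induction L with
  | nil => exact absurd h (List.not_mem_nil)
  | cons w L ih =>
    rw [List.nodup_cons] at hL
    rw [aft_cons] at h
    rw [aft_cons, aft_cons]
    by_cases hw : w = u
    · rw [if_pos hw] at h ⊢
      have : w ≠ v := by rintro rfl; exact hL.1 h
      rw [if_neg this]
    · rw [if_neg hw] at h ⊢
      have : w ≠ v := by rintro rfl; exact hL.1 (mem_of_mem_aft h)
      rw [if_neg this]
      exact ih hL.2 h

theorem mem_aft_total {u v : ℕ} {L : List ℕ} (hu : u ∈ L) (hv : v ∈ L) (huv : u ≠ v) :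
    v ∈ aft u L ∨ u ∈ aft v L := by
  induction L with
  | nil => exact absurd hu (List.not_mem_nil)
  | cons w L ih =>
    unfold aft
    rw [List.mem_cons] at hu hv
    by_cases h1 : w = u
    · subst h1
      rw [if_pos rfl]
      left
      rcases hv with rfl | hv
      · exact absurd rfl huv
      · exact hv
    · by_cases h2 : w = v
      · subst h2
        rw [if_pos rfl]
        right
        rcases hu with rfl | hu
        · exact absurd rfl huv
        · exact hu
      · rw [if_neg h1, if_neg h2]
        refine ih ?_ ?_
        · rcases hu with rfl | hu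
          · exact absurd rfl h1
          · exact hu
        · rcases hv with rfl | hv
          · exact absurd rfl h2
          · exact hv

theorem aft_trans {u v w : ℕ} {L : List ℕ} (hL : L.Nodup) (h1 : v ∈ aft u L) (h2 : w ∈ aft v L) :
    w ∈ aft u L := by
  rw [← aft_aft hL h1] at h2
  exact mem_of_mem_aft h2

theorem not_mem_aft_self {v : ℕ} {L : List ℕ} (hL : L.Nodup) : v ∉ aft v L := by
  induction L with
  | nil => exact List.not_mem_nil
  | cons w L ih =>
    rw [List.nodup_cons] at hL
    unfold aft
    by_cases hw : w = v
    · subst hw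
      rw [if_pos rfl]
      exact hL.1
    · rw [if_neg hw]
      exact ih hL.2

/-- The time needed for the jobs of the list without waiting. -/
def load (x : Inst) : ℕ → List ℕ → ℕ
  | p, [] => travel x p x.2.1
  | p, j :: π => travel x p j + han x j + load x j π

theorem finish_mono (x : Inst) (π : List ℕ) : ∀ {t t' p : ℕ}, t ≤ t' →
    finish x t p π ≤ finish x t' p π := by
  induction π with
  | nil => intro t t' p h; simp only [finish]; omega
  | cons j π ih =>
    intro t t' p h
    simp only [finish]
    exact ih (by omega)

theorem finish_ge_load (x : Inst) (π : List ℕ) : ∀ t p : ℕ, t + load x p π ≤ finish x t p π := by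
  induction π with
  | nil => intro t p; simp only [finish, load]; omega
  | cons j π ih =>
    intro t p
    simp only [finish, load]
    refine le_trans ?_ (ih _ _)
    omega

theorem finish_ge_aft (x : Inst) (v : ℕ) (π : List ℕ) (hv : v ∈ π) : ∀ t p : ℕ,
    rel x v + han x v + load x v (aft v π) ≤ finish x t p π := by
  induction π with
  | nil => exact absurd hv (List.not_mem_nil)
  | cons j π ih =>
    intro t p
    unfold aft
    simp only [finish]
    by_cases h : j = v
    · subst h
      rw [if_pos rfl]
      refine le_trans ?_ (finish_ge_load x π _ _)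
      omega
    · rw [if_neg h]
      refine ih ?_ _ _
      rcases List.mem_cons.1 hv with h1 | h1
      · exact absurd h1.symm h
      · exact h1

/-- whether the edge between `b` and `b + 1` is between `u` and `v` -/
def cr (b u v : ℕ) : ℕ := if (b < u ↔ b < v) then 0 else 1

/-- how often the edge between `b` and `b + 1` is used on the way from `p` through the vertices of
the list to the vertex `o` -/
def chg (b o : ℕ) : ℕ → List ℕ → ℕ
  | p, [] => cr b p o
  | p, j :: π => cr b p j + chg b o j π

theorem cr_triangle (b u v w : ℕ) : cr b u w ≤ cr b u v + cr b v w := by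
  unfold cr
  by_cases h1 : b < u <;> by_cases h2 : b < v <;> by_cases h3 : b < w <;> simp [h1, h2, h3]

theorem chg_triangle (b o : ℕ) (π : List ℕ) (p q : ℕ) :
    chg b o p π ≤ cr b p q + chg b o q π := by
  cases π with
  | nil => exact cr_triangle _ _ _ _
  | cons j π =>
    simp only [chg]
    have := cr_triangle b p q j
    omega

theorem chg_aft (b o v : ℕ) (π : List ℕ) (hv : v ∈ π) : ∀ p : ℕ,
    cr b p v + chg b o v (aft v π) ≤ chg b o p π := by
  induction π with
  | nil => exact absurd hv (List.not_mem_nil)
  | cons j π ih =>
    intro p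
    rw [aft_cons]
    by_cases h : j = v
    · subst h
      rw [if_pos rfl]
      exact le_rfl
    · rw [if_neg h]
      simp only [chg]
      have h1 := ih (by
        rcases List.mem_cons.1 hv with h1 | h1
        · exact absurd h1.symm h
        · exact h1) j
      have h2 := cr_triangle b p j v
      omega

theorem travel_eq {x : Inst} (hs : ∀ b, fwd x b = bwd x b) {N u v : ℕ} (hu : u ≤ N) (hv : v ≤ N) :
    travel x u v = ∑ b ∈ Finset.range N, fwd x b * cr b u v := by
  unfold travel
  have h1 : ∑ k ∈ Finset.Ico v u, bwd x k = ∑ k ∈ Finset.Ico v u, fwd x k :=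
    Finset.sum_congr rfl (fun k _ => (hs k).symm)
  rw [h1, ← Finset.sum_union]
  · rw [← Finset.sum_subset (s₁ := Finset.Ico u v ∪ Finset.Ico v u) (s₂ := Finset.range N)]
    · refine Finset.sum_congr rfl ?_
      intro b hb
      rw [Finset.mem_union, Finset.mem_Ico, Finset.mem_Ico] at hb
      have : cr b u v = 1 := by
        unfold cr
        rw [if_neg]
        omega
      rw [this, mul_one]
    · intro b hb
      rw [Finset.mem_union, Finset.mem_Ico, Finset.mem_Ico] at hb
      rw [Finset.mem_range]
      omega
    · intro b _ hb
      rw [Finset.mem_union, Finset.mem_Ico, Finset.mem_Ico] at hb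
      have : cr b u v = 0 := by
        unfold cr
        rw [if_pos]
        omega
      rw [this, mul_zero]
  · rw [Finset.disjoint_left]
    intro b hb
    rw [Finset.mem_Ico] at hb ⊢
    omega

theorem load_eq {x : Inst} (hs : ∀ b, fwd x b = bwd x b) {N : ℕ} (ho : x.2.1 ≤ N) (π : List ℕ)
    (hπ : ∀ j ∈ π, j ≤ N) : ∀ p ≤ N,
    load x p π = (π.map (han x)).sum + ∑ b ∈ Finset.range N, fwd x b * chg b x.2.1 p π := by
  induction π with
  | nil =>
    intro p hp
    simp only [load, chg, List.map_nil, List.sum_nil, zero_add]
    exact travel_eq hs hp ho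
  | cons j π ih =>
    intro p hp
    have hj := hπ j List.mem_cons_self
    simp only [load, chg, List.map_cons, List.sum_cons, mul_add, Finset.sum_add_distrib]
    rw [ih (fun k hk => hπ k (List.mem_cons_of_mem _ hk)) j hj, travel_eq hs hp hj]
    omega

end Pool.Agent.Q321.VS
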