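import Mathlib
import Pool.Agent.Q321.VS.Basic

/-!
# The instance constructed from an instance of subset sum
-/

namespace Pool.Agent.Q321.VS

/-- sum of the first `i` numbers -/
def sg (al : List ℕ) (i : ℕ) : ℕ := (al.take i).sum

/-- twice the sum of the partial sums -/
def EE (al : List ℕ) : ℕ := 2 * ((List.range al.length).map (sg al)).sum

/-- extra release time of the first vertex -/
def Dl (al : List ℕ) (t : ℕ) : ℕ := 3 * (al.sum - t) + EE al

/-- total time besides the big jobs -/
def VV (al : List ℕ) (t : ℕ) : ℕ := Dl al t + 2 * al.sum + t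

/-- handling time of the big jobs -/
def HH (al : List ℕ) (t : ℕ) : ℕ := VV al t + 1

/-- big jobs -/
def Big (n v : ℕ) : Prop := v ≤ n ∨ (v - n) % 2 = 1

instance (n v : ℕ) : Decidable (Big n v) := by unfold Big; infer_instance

/-- release times -/
def rr (al : List ℕ) (t v : ℕ) : ℕ :=
  if v = 0 then 2 * al.length * HH al t + Dl al t
  else if v ≤ al.length then 2 * (al.length - v) * HH al t
  else if v = 3 * al.length + 1 then (2 * al.length + 1) * HH al t
  else if (v - al.length) % 2 = 1 then (3 * al.length - v) * HH al t
  else (3 * al.length + 1 - v) * HH al t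

/-- handling times -/
def hh (al : List ℕ) (t v : ℕ) : ℕ :=
  if Big al.length v then HH al t else al.getD ((v - al.length) / 2 - 1) 0

/-- edge lengths -/
def ff (al : List ℕ) (v : ℕ) : ℕ :=
  if al.length < v ∧ (v - al.length) % 2 = 1 then al.getD ((v - al.length) / 2) 0 else 0

/-- the vertices of the instance -/
def vx (al : List ℕ) (t v : ℕ) : Vx := (rr al t v, hh al t v, ff al v, ff al v)

/-- the instance -/
def inst (al : List ℕ) (t : ℕ) : Inst :=
  ((List.range (3 * al.length + 2)).map (vx al t), 0, (2 * al.length + 2) * HH al t + VV al t)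

section

variable (al : List ℕ) (t : ℕ)

theorem getD_inst {v : ℕ} (hv : v < 3 * al.length + 2) :
    (inst al t).1.getD v (0, 0, 0, 0) = vx al t v := by
  unfold inst
  simp only
  rw [List.getD_eq_getElem?_getD, List.getElem?_map, List.getElem?_range hv]
  rfl

theorem getD_inst_ge {v : ℕ} (hv : 3 * al.length + 2 ≤ v) :
    (inst al t).1.getD v (0, 0, 0, 0) = (0, 0, 0, 0) := by
  unfold inst
  simp only
  rw [List.getD_eq_getElem?_getD, List.getElem?_eq_none (by simp; omega)]
  rfl

theorem rel_inst {v : ℕ} (hv : v < 3 * al.length + 2) : rel (inst al t) v = rr al t v := by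
  unfold rel
  rw [getD_inst al t hv]
  rfl

theorem han_inst {v : ℕ} (hv : v < 3 * al.length + 2) : han (inst al t) v = hh al t v := by
  unfold han
  rw [getD_inst al t hv]
  rfl

theorem fwd_inst (v : ℕ) : fwd (inst al t) v = ff al v := by
  unfold fwd
  by_cases hv : v < 3 * al.length + 2
  · rw [getD_inst al t hv]
    rfl
  · rw [getD_inst_ge al t (by omega)]
    unfold ff
    split_ifs
    · simp only
      rw [List.getD_eq_getElem?_getD, List.getElem?_eq_none (by omega)]
      rfl
    · rfl

theorem bwd_inst (v : ℕ) : bwd (inst al t) v = ff al v := by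
  unfold bwd
  by_cases hv : v < 3 * al.length + 2
  · rw [getD_inst al t hv]
    rfl
  · rw [getD_inst_ge al t (by omega)]
    unfold ff
    split_ifs
    · simp only
      rw [List.getD_eq_getElem?_getD, List.getElem?_eq_none (by omega)]
      rfl
    · rfl

theorem sym_inst (v : ℕ) : fwd (inst al t) v = bwd (inst al t) v := by
  rw [fwd_inst, bwd_inst]

/-- the number `a k` -/
abbrev aa (al : List ℕ) (k : ℕ) : ℕ := al.getD k 0

theorem sg_succ (i : ℕ) : sg al (i + 1) = sg al i + aa al i := by
  unfold sg aa
  by_cases h : i < al.length
  · rw [List.take_succ, List.sum_append, List.getD_eq_getElem?_getD, List.getElem?_eq_getElem h]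
    simp
  · rw [List.take_of_length_le (by omega), List.take_of_length_le (by omega),
      List.getD_eq_getElem?_getD, List.getElem?_eq_none (by omega)]
    simp

theorem sg_zero : sg al 0 = 0 := rfl

theorem sg_eq_sum (i : ℕ) : sg al i = ∑ k ∈ Finset.range i, aa al k := by
  induction i with
  | zero => rfl
  | succ i ih => rw [sg_succ, ih, Finset.sum_range_succ]

theorem sg_length : sg al al.length = al.sum := by
  unfold sg
  rw [List.take_length]

theorem sum_eq : al.sum = ∑ k ∈ Finset.range al.length, aa al k := by
  rw [← sg_length, sg_eq_sum]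

theorem EE_eq : EE al = ∑ k ∈ Finset.range al.length, aa al k * (2 * (al.length - 1 - k)) := by
  have hE : EE al = 2 * ∑ i ∈ Finset.range al.length, sg al i := by
    unfold EE
    congr 1
  have key : ∀ n, ∑ i ∈ Finset.range n, sg al i =
      ∑ k ∈ Finset.range n, aa al k * (n - 1 - k) := by
    intro n
    induction n with
    | zero => rfl
    | succ n ih =>
      rw [Finset.sum_range_succ, ih, Finset.sum_range_succ (fun k => aa al k * (n + 1 - 1 - k)),
        sg_eq_sum, ← Finset.sum_add_distrib]
      have : n + 1 - 1 - n = 0 := by omega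
      rw [this, mul_zero, add_zero]
      refine Finset.sum_congr rfl ?_
      intro k hk
      rw [Finset.mem_range] at hk
      have : n + 1 - 1 - k = (n - 1 - k) + 1 := by omega
      rw [this]
      ring
  rw [hE, key, Finset.mul_sum]
  refine Finset.sum_congr rfl (fun k _ => by ring)

/-- position of a vertex -/
theorem sum_ff (v : ℕ) : ∑ b ∈ Finset.range v, ff al b = sg al ((v - al.length) / 2) := by
  induction v with
  | zero => simp [sg]
  | succ v ih =>
    rw [Finset.sum_range_succ, ih]
    unfold ff
    split_ifs with h
    · have : (v + 1 - al.length) / 2 = (v - al.length) / 2 + 1 := by omega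
      rw [this, sg_succ]
    · have : (v + 1 - al.length) / 2 = (v - al.length) / 2 := by omega
      rw [this, add_zero]

theorem travel_inst (u v : ℕ) : travel (inst al t) u v =
    (sg al ((v - al.length) / 2) - sg al ((u - al.length) / 2)) +
      (sg al ((u - al.length) / 2) - sg al ((v - al.length) / 2)) := by
  unfold travel
  simp only [fwd_inst, bwd_inst]
  rw [← sum_ff, ← sum_ff]
  rcases Nat.le_total u v with h | h
  · rw [Finset.Ico_eq_empty (a := v) (b := u) (by omega)]
    have h1 := Finset.sum_range_add_sum_Ico (fun b => ff al b) h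
    simp only [Finset.sum_empty]
    omega
  · rw [Finset.Ico_eq_empty (a := u) (b := v) (by omega)]
    have h1 := Finset.sum_range_add_sum_Ico (fun b => ff al b) h
    simp only [Finset.sum_empty]
    omega

theorem hh_big {v : ℕ} (hv : Big al.length v) : hh al t v = HH al t := by
  unfold hh; rw [if_pos hv]

theorem hh_small (k : ℕ) : hh al t (al.length + 2 + 2 * k) = aa al k := by
  unfold hh
  rw [if_neg (by unfold Big; omega)]
  unfold aa
  congr 1
  omega

theorem sum_hh : ∑ v ∈ Finset.range (3 * al.length + 2), hh al t v =
    (2 * al.length + 2) * HH al t + al.sum := by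
  have key : ∀ n, ∑ v ∈ Finset.range (al.length + 2 + 2 * n), hh al t v =
      (al.length + 2 + n) * HH al t + ∑ k ∈ Finset.range n, aa al k := by
    intro n
    induction n with
    | zero =>
      rw [Finset.sum_congr rfl (g := fun _ => HH al t)]
      · simp
      · intro v hv
        rw [Finset.mem_range] at hv
        refine hh_big al t ?_
        unfold Big
        omega
    | succ n ih =>
      have : al.length + 2 + 2 * (n + 1) = (al.length + 2 + 2 * n) + 1 + 1 := by ring
      rw [this, Finset.sum_range_succ, Finset.sum_range_succ, ih, hh_small, Finset.sum_range_succ,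
        hh_big al t (v := al.length + 2 + 2 * n + 1) (by unfold Big; omega)]
      ring
  have h := key al.length
  rw [← sum_eq] at h
  have e1 : al.length + 2 + 2 * al.length = 3 * al.length + 2 := by ring
  have e2 : al.length + 2 + al.length = 2 * al.length + 2 := by ring
  rw [e1, e2] at h
  exact h

end

end Pool.Agent.Q321.VS
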