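import Mathlib
import Pool.Agent.Q321.VS.Inst

/-!
# A good schedule gives a solution of subset sum
-/

namespace Pool.Agent.Q321.VS

theorem sum_le_of_mem {L : List ℕ} (hL : L.Nodup) (f : ℕ → ℕ) (S : Finset ℕ)
    (hS : ∀ v ∈ S, v ∈ L) : ∑ v ∈ S, f v ≤ (L.map f).sum := by
  rw [← List.sum_toFinset f hL]
  exact Finset.sum_le_sum_of_subset (fun v hv => List.mem_toFinset.2 (hS v hv))

theorem sum_le_load (x : Inst) (π : List ℕ) : ∀ p, (π.map (han x)).sum ≤ load x p π := by
  induction π with
  | nil => intro p; simp
  | cons j π ih =>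
    intro p
    simp only [List.map_cons, List.sum_cons, load]
    have := ih j
    omega

/-- the big job of rank `k` -/
def cc (n k : ℕ) : ℕ :=
  if k = 2 * n + 1 then 3 * n + 1 else if k % 2 = 0 then n - k / 2 else 3 * n - k

theorem cc_even {n j : ℕ} (hj : j ≤ n) : cc n (2 * (n - j)) = j := by
  unfold cc
  rw [if_neg (by omega), if_pos (by omega)]
  omega

theorem cc_odd {n j : ℕ} (hj : j < n) : cc n (2 * (n - j) - 1) = n + 1 + 2 * j := by
  unfold cc
  rw [if_neg (by omega), if_neg (by omega)]
  omega

theorem cc_last (n : ℕ) : cc n (2 * n + 1) = 3 * n + 1 := by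
  unfold cc
  rw [if_pos rfl]

theorem cc_inj {n k l : ℕ} (hk : k ≤ 2 * n + 1) (hl : l ≤ 2 * n + 1) (h : cc n k = cc n l) :
    k = l := by
  unfold cc at h
  split_ifs at h <;> omega

theorem cc_big {n k : ℕ} (hk : k ≤ 2 * n + 1) : Big n (cc n k) := by
  unfold Big cc
  split_ifs <;> omega

theorem cc_lt {n k : ℕ} (hk : k ≤ 2 * n + 1) : cc n k < 3 * n + 2 := by
  unfold cc
  split_ifs <;> omega

section

variable (al : List ℕ) (t : ℕ)

theorem rr_cc {k : ℕ} (hk : k ≤ 2 * al.length + 1) : k * HH al t ≤ rr al t (cc al.length k) := by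
  unfold rr cc
  generalize al.length = n at *
  generalize HH al t = H at *
  generalize Dl al t = D at *
  by_cases h1 : k = 2 * n + 1
  · subst h1
    rw [if_pos rfl, if_neg (by omega), if_neg (by omega), if_pos rfl]
  · rw [if_neg h1]
    by_cases h2 : k % 2 = 0
    · rw [if_pos h2]
      by_cases h3 : k = 2 * n
      · rw [if_pos (by omega), h3]
        exact Nat.le_add_right _ _
      · rw [if_neg (by omega), if_pos (by omega)]
        have e : k = 2 * (n - (n - k / 2)) := by omega
        exact (congrArg (fun z => z * H) e).le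
    · rw [if_neg h2, if_neg (by omega), if_neg (by omega), if_neg (by omega), if_pos (by omega)]
      have e : k = 3 * n - (3 * n - k) := by omega
      exact (congrArg (fun z => z * H) e).le

variable {π : List ℕ} (hπ : π.Perm (List.range (3 * al.length + 2)))
  (hK : completion (inst al t) π ≤ (inst al t).2.2)

include hπ hK

theorem nd : π.Nodup := hπ.nodup_iff.2 List.nodup_range

theorem memπ {v : ℕ} (hv : v < 3 * al.length + 2) : v ∈ π :=
  hπ.mem_iff.2 (List.mem_range.2 hv)

theorem lt_of_memπ {v : ℕ} (hv : v ∈ π) : v < 3 * al.length + 2 :=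
  List.mem_range.1 (hπ.mem_iff.1 hv)

theorem bound_aft {v : ℕ} (hv : v < 3 * al.length + 2) :
    rr al t v + hh al t v + load (inst al t) v (aft v π) ≤
      (2 * al.length + 2) * HH al t + VV al t := by
  have h := finish_ge_aft (inst al t) v π (memπ al t hπ hK hv) 0 (inst al t).2.1
  rw [rel_inst al t hv, han_inst al t hv] at h
  exact h.trans hK

theorem count_aft {v : ℕ} (S : Finset ℕ) (hS : ∀ w ∈ S, w ∈ aft v π ∧ Big al.length w) :
    S.card * HH al t ≤ load (inst al t) v (aft v π) := by
  refine le_trans ?_ (sum_le_load _ _ _)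
  refine le_trans ?_ (sum_le_of_mem ((nd al t hπ hK).sublist (aft_sublist v π))
    (han (inst al t)) S (fun w hw => (hS w hw).1))
  rw [← smul_eq_mul, ← Finset.sum_const]
  refine Finset.sum_le_sum ?_
  intro w hw
  rw [han_inst al t (lt_of_memπ al t hπ hK (mem_of_mem_aft (hS w hw).1)), hh_big al t (hS w hw).2]

theorem card_le {v k : ℕ} (hv : v < 3 * al.length + 2) (hr : k * HH al t ≤ rr al t v)
    (S : Finset ℕ) (hS : ∀ w ∈ S, w ∈ aft v π ∧ Big al.length w) :
    k + S.card ≤ 2 * al.length + 2 := by
  have h1 := bound_aft al t hπ hK hv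
  have h2 := count_aft al t hπ hK (v := v) S hS
  by_contra hc
  have h3 : (2 * al.length + 3) * HH al t ≤ (k + S.card) * HH al t :=
    Nat.mul_le_mul_right _ (by omega)
  have h4 : (k + S.card) * HH al t ≤ (2 * al.length + 2) * HH al t + VV al t := by
    rw [add_mul]
    omega
  have h5 : (2 * al.length + 3) * HH al t = (2 * al.length + 2) * HH al t + HH al t := by ring
  have h6 : HH al t = VV al t + 1 := rfl
  omega

theorem card_le_big {k : ℕ} (hk : k ≤ 2 * al.length + 1)
    (S : Finset ℕ) (hS : ∀ w ∈ S, w ∈ aft (cc al.length k) π ∧ Big al.length w) :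
    k + 1 + S.card ≤ 2 * al.length + 2 := by
  have h1 := bound_aft al t hπ hK (cc_lt hk)
  have h2 := count_aft al t hπ hK (v := cc al.length k) S hS
  have h0 := rr_cc al t hk
  rw [hh_big al t (cc_big hk)] at h1
  by_contra hc
  have h3 : (2 * al.length + 3) * HH al t ≤ (k + 1 + S.card) * HH al t :=
    Nat.mul_le_mul_right _ (by omega)
  have h4 : (k + 1 + S.card) * HH al t ≤ (2 * al.length + 2) * HH al t + VV al t := by
    rw [add_mul, add_mul]
    omega
  have h5 : (2 * al.length + 3) * HH al t = (2 * al.length + 2) * HH al t + HH al t := by ring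
  have h6 : HH al t = VV al t + 1 := rfl
  omega

/-- The big jobs are processed in the order of their ranks. -/
theorem order : ∀ d ≤ 2 * al.length + 1, ∀ j, 2 * al.length + 1 - d < j → j ≤ 2 * al.length + 1 →
    cc al.length j ∈ aft (cc al.length (2 * al.length + 1 - d)) π := by
  intro d
  induction d using Nat.strong_induction_on with
  | _ d ih =>
    intro hd j hj1 hj2
    by_contra hc
    have hne : cc al.length (2 * al.length + 1 - d) ≠ cc al.length j := by
      intro e
      have := cc_inj (by omega) hj2 e
      omega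
    have h1 := (mem_aft_total (memπ al t hπ hK (cc_lt (n := al.length)
      (k := 2 * al.length + 1 - d) (by omega))) (memπ al t hπ hK (cc_lt hj2)) hne).resolve_left hc
    have h2 := card_le_big al t hπ hK hj2
      ((insert (2 * al.length + 1 - d) (Finset.Ioc j (2 * al.length + 1))).image (cc al.length)) ?_
    · rw [Finset.card_image_of_injOn, Finset.card_insert_of_notMem, Nat.card_Ioc] at h2
      · omega
      · rw [Finset.mem_Ioc]
        omega
      · intro a ha b hb hab
        rw [Finset.mem_coe, Finset.mem_insert, Finset.mem_Ioc] at ha hb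
        exact cc_inj (by omega) (by omega) hab
    · intro w hw
      rw [Finset.mem_image] at hw
      obtain ⟨l, hl, rfl⟩ := hw
      rw [Finset.mem_insert, Finset.mem_Ioc] at hl
      refine ⟨?_, cc_big (by omega)⟩
      rcases hl with rfl | hl
      · exact h1
      · have := ih (2 * al.length + 1 - j) (by omega) (by omega) l (by omega) (by omega)
        have e : 2 * al.length + 1 - (2 * al.length + 1 - j) = j := by omega
        rw [e] at this
        exact this

theorem order' {k j : ℕ} (h : k < j) (hj : j ≤ 2 * al.length + 1) :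
    cc al.length j ∈ aft (cc al.length k) π := by
  have := order al t hπ hK (2 * al.length + 1 - k) (by omega) j (by omega) hj
  have e : 2 * al.length + 1 - (2 * al.length + 1 - k) = k := by omega
  rwa [e] at this

/-- `g (j+1)` before `e j` -/
theorem ord_ge {j : ℕ} (hj : j < al.length) : al.length + 1 + 2 * j ∈ aft (j + 1) π := by
  have := order' al t hπ hK (k := 2 * (al.length - (j + 1))) (j := 2 * (al.length - j) - 1)
    (by omega) (by omega)
  rwa [cc_even (by omega), cc_odd hj] at this

/-- `e j` before `g j` -/
theorem ord_eg {j : ℕ} (hj : j < al.length) : j ∈ aft (al.length + 1 + 2 * j) π := by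
  have := order' al t hπ hK (k := 2 * (al.length - j) - 1) (j := 2 * (al.length - j))
    (by omega) (by omega)
  rwa [cc_even (by omega), cc_odd hj] at this

/-- `X` is after vertex `0`. -/
theorem ord_last : 3 * al.length + 1 ∈ aft 0 π := by
  have := order' al t hπ hK (k := 2 * (al.length - 0)) (j := 2 * al.length + 1)
    (by omega) (by omega)
  rwa [cc_even (by omega), cc_last] at this

/-- The small job `k` is after `g (k+1)`. -/
theorem ord_small {k : ℕ} (hk : k < al.length) :
    al.length + 2 + 2 * k ∈ aft (k + 1) π := by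
  by_contra hc
  have h1 := (mem_aft_total (memπ al t hπ hK (v := k + 1) (by omega))
    (memπ al t hπ hK (v := al.length + 2 + 2 * k) (by omega)) (by omega)).resolve_left hc
  have hr : (2 * (al.length - k) - 1) * HH al t ≤ rr al t (al.length + 2 + 2 * k) := by
    unfold rr
    rw [if_neg (by omega), if_neg (by omega), if_neg (by omega), if_neg (by omega)]
    refine Nat.mul_le_mul_right _ (by omega)
  have h2 := card_le al t hπ hK (v := al.length + 2 + 2 * k) (by omega) hr
    ((Finset.Icc (2 * (al.length - (k + 1))) (2 * al.length + 1)).image (cc al.length)) ?_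
  · rw [Finset.card_image_of_injOn, Nat.card_Icc] at h2
    · omega
    · intro a ha b hb hab
      rw [Finset.mem_coe, Finset.mem_Icc] at ha hb
      exact cc_inj (by omega) (by omega) hab
  · intro w hw
    rw [Finset.mem_image] at hw
    obtain ⟨l, hl, rfl⟩ := hw
    rw [Finset.mem_Icc] at hl
    refine ⟨?_, cc_big (by omega)⟩
    by_cases hl2 : l = 2 * (al.length - (k + 1))
    · rw [hl2, cc_even (by omega)]
      exact h1
    · have := order' al t hπ hK (k := 2 * (al.length - (k + 1))) (j := l) (by omega) (by omega)
      rw [cc_even (by omega)] at this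
      exact aft_trans (nd al t hπ hK) h1 this

end

theorem cr_left {b u v : ℕ} (hu : u ≤ b) (hv : b < v) : cr b u v = 1 := by
  unfold cr
  rw [if_neg]
  omega

theorem cr_right {b u v : ℕ} (hu : b < u) (hv : v ≤ b) : cr b u v = 1 := by
  unfold cr
  rw [if_neg]
  omega

theorem cr_le_chg (b o : ℕ) (π : List ℕ) : ∀ p, cr b p o ≤ chg b o p π := by
  induction π with
  | nil => intro p; exact le_rfl
  | cons j π ih =>
    intro p
    simp only [chg]
    have h1 := ih j
    have h2 := cr_triangle b p j o
    omega

theorem chg_step {b o u v : ℕ} {π : List ℕ} (hL : π.Nodup) (hv : v ∈ aft u π) :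
    cr b u v + chg b o v (aft v π) ≤ chg b o u (aft u π) := by
  have := chg_aft b o v (aft u π) hv u
  rwa [aft_aft hL hv] at this

section

variable (al : List ℕ) (t : ℕ) {π : List ℕ} (hπ : π.Perm (List.range (3 * al.length + 2)))
  (hK : completion (inst al t) π ≤ (inst al t).2.2)

include hπ hK

theorem chg_phase {k : ℕ} (hk : k < al.length) : ∀ d, k + 1 + d ≤ al.length →
    2 * (al.length - (k + 1 + d)) +
      chg (al.length + 1 + 2 * k) 0 (k + 1 + d) (aft (k + 1 + d) π) ≤
      chg (al.length + 1 + 2 * k) 0 0 π := by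
  intro d hd
  obtain ⟨f, hf⟩ : ∃ f, f = al.length - (k + 1 + d) := ⟨_, rfl⟩
  induction f generalizing d with
  | zero =>
    have h1 := chg_aft (al.length + 1 + 2 * k) 0 (k + 1 + d) π (memπ al t hπ hK (by omega)) 0
    omega
  | succ f ih =>
    have h1 := ih (d + 1) (by omega) (by omega)
    have h2 := chg_step (b := al.length + 1 + 2 * k) (o := 0) (nd al t hπ hK)
      (ord_ge al t hπ hK (j := k + 1 + d) (by omega))
    have h3 := chg_step (b := al.length + 1 + 2 * k) (o := 0) (nd al t hπ hK)
      (ord_eg al t hπ hK (j := k + 1 + d) (by omega))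
    rw [cr_left (by omega) (by omega)] at h2
    rw [cr_right (by omega) (by omega)] at h3
    have e : k + 1 + (d + 1) = k + 1 + d + 1 := by ring
    rw [e] at h1
    omega

open Classical in
/-- How often the long edge `k` is used. -/
theorem chg_total {k : ℕ} (hk : k < al.length) :
    2 * (al.length - 1 - k) + 2 + 2 * (if 0 ∈ aft (al.length + 2 + 2 * k) π then 1 else 0) ≤
      chg (al.length + 1 + 2 * k) 0 0 π := by
  have h1 := chg_phase al t hπ hK hk 0 (by omega)
  simp only [add_zero] at h1
  have hX : 2 ≤ chg (al.length + 1 + 2 * k) 0 0 (aft 0 π) := by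
    have h2 := chg_step (b := al.length + 1 + 2 * k) (o := 0) (nd al t hπ hK)
      (ord_last al t hπ hK)
    have h3 := cr_le_chg (al.length + 1 + 2 * k) 0 (aft (3 * al.length + 1) π) (3 * al.length + 1)
    rw [cr_left (by omega) (by omega)] at h2
    rw [cr_right (by omega) (by omega)] at h3
    omega
  split_ifs with hB
  · have h2 := chg_step (b := al.length + 1 + 2 * k) (o := 0) (nd al t hπ hK)
      (ord_small al t hπ hK hk)
    have h3 := chg_step (b := al.length + 1 + 2 * k) (o := 0) (nd al t hπ hK) hB
    rw [cr_left (by omega) (by omega)] at h2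
    rw [cr_right (by omega) (by omega)] at h3
    omega
  · have h0 : 0 ∈ aft (k + 1) π := by
      have := order' al t hπ hK (k := 2 * (al.length - (k + 1))) (j := 2 * (al.length - 0))
        (by omega) (by omega)
      rwa [cc_even (by omega), cc_even (by omega)] at this
    have h2 := chg_step (b := al.length + 1 + 2 * k) (o := 0) (nd al t hπ hK) h0
    omega

omit hπ hK in
theorem sum_emb (F : ℕ → ℕ) : ∑ k ∈ Finset.range al.length, aa al k * F (al.length + 1 + 2 * k) ≤
    ∑ b ∈ Finset.range (3 * al.length + 2), fwd (inst al t) b * F b := by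
  have h1 : ∑ b ∈ (Finset.range al.length).image (fun k => al.length + 1 + 2 * k),
      fwd (inst al t) b * F b = ∑ k ∈ Finset.range al.length,
        aa al k * F (al.length + 1 + 2 * k) := by
    rw [Finset.sum_image]
    · refine Finset.sum_congr rfl ?_
      intro k hk
      rw [fwd_inst]
      unfold ff
      rw [if_pos (by omega)]
      have : (al.length + 1 + 2 * k - al.length) / 2 = k := by omega
      rw [this]
    · intro a _ b _ hab
      simp only at hab
      omega
  rw [← h1]
  refine Finset.sum_le_sum_of_subset ?_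
  intro b hb
  rw [Finset.mem_image] at hb
  obtain ⟨k, hk, rfl⟩ := hb
  rw [Finset.mem_range] at hk ⊢
  omega

open Classical in
/-- the small jobs before the job of the start vertex -/
noncomputable def Bs (al π : List ℕ) : Finset ℕ :=
  (Finset.range al.length).filter (fun k => 0 ∈ aft (al.length + 2 + 2 * k) π)

open Classical in
/-- the small jobs after the job of the start vertex -/
noncomputable def As (al π : List ℕ) : Finset ℕ :=
  (Finset.range al.length).filter (fun k => ¬ 0 ∈ aft (al.length + 2 + 2 * k) π)

theorem sum_Bs (ht : t ≤ al.sum) : ∑ k ∈ Bs al π, aa al k ≤ al.sum - t := by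
  classical
  have h1 : load (inst al t) 0 π ≤ (2 * al.length + 2) * HH al t + VV al t := by
    refine le_trans ?_ hK
    have := finish_ge_load (inst al t) π 0 (inst al t).2.1
    rw [zero_add] at this
    exact this
  rw [load_eq (sym_inst al t) (N := 3 * al.length + 2) (Nat.zero_le _) π
    (fun j hj => (lt_of_memπ al t hπ hK hj).le) 0 (Nat.zero_le _)] at h1
  have h2 : (π.map (han (inst al t))).sum = (2 * al.length + 2) * HH al t + al.sum := by
    rw [(hπ.map _).sum_eq, ← sum_hh al t, Finset.sum_range]
    rw [← List.sum_ofFn]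
    congr 1
    rw [List.ofFn_eq_map, ← List.map_coe_finRange_eq_range, List.map_map]
    refine List.map_congr_left ?_
    intro i _
    exact han_inst al t i.2
  rw [h2] at h1
  have h3 := sum_emb al t (fun b => chg b (inst al t).2.1 0 π)
  have h4 : ∑ k ∈ Finset.range al.length, aa al k * (2 * (al.length - 1 - k) + 2 +
      2 * (if 0 ∈ aft (al.length + 2 + 2 * k) π then 1 else 0)) ≤
      ∑ k ∈ Finset.range al.length, aa al k * chg (al.length + 1 + 2 * k) (inst al t).2.1 0 π := by
    refine Finset.sum_le_sum ?_
    intro k hk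
    exact Nat.mul_le_mul_left _ (chg_total al t hπ hK (Finset.mem_range.1 hk))
  have h5 : ∑ k ∈ Finset.range al.length, aa al k * (2 * (al.length - 1 - k) + 2 +
      2 * (if 0 ∈ aft (al.length + 2 + 2 * k) π then 1 else 0)) =
      EE al + 2 * al.sum + 2 * ∑ k ∈ Bs al π, aa al k := by
    rw [EE_eq, sum_eq]
    unfold Bs
    rw [Finset.sum_filter, Finset.mul_sum, Finset.mul_sum, ← Finset.sum_add_distrib,
      ← Finset.sum_add_distrib]
    refine Finset.sum_congr rfl ?_
    intro k _
    split_ifs <;> ring
  have h6 : VV al t = 3 * (al.sum - t) + EE al + 2 * al.sum + t := rfl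
  omega

theorem sum_As (ht : t ≤ al.sum) : ∑ k ∈ As al π, aa al k ≤ t := by
  classical
  have h1 := bound_aft al t hπ hK (v := 0) (by omega)
  rw [load_eq (sym_inst al t) (N := 3 * al.length + 2) (Nat.zero_le _) _
    (fun j hj => (lt_of_memπ al t hπ hK (mem_of_mem_aft hj)).le) 0 (Nat.zero_le _)] at h1
  have h2 := sum_le_of_mem ((nd al t hπ hK).sublist (aft_sublist 0 π)) (han (inst al t))
    (insert (3 * al.length + 1) ((As al π).image (fun k => al.length + 2 + 2 * k))) (by
      intro v hv
      rw [Finset.mem_insert, Finset.mem_image] at hv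
      rcases hv with rfl | ⟨k, hk, rfl⟩
      · exact ord_last al t hπ hK
      · unfold As at hk
        rw [Finset.mem_filter, Finset.mem_range] at hk
        exact (mem_aft_total (memπ al t hπ hK (by omega)) (memπ al t hπ hK (by omega))
          (by omega)).resolve_right hk.2)
  rw [Finset.sum_insert (by
    rw [Finset.mem_image]
    rintro ⟨k, hk, h⟩
    unfold As at hk
    rw [Finset.mem_filter, Finset.mem_range] at hk
    omega), Finset.sum_image (by
      intro a _ b _ hab
      simp only at hab
      omega), han_inst al t (by omega), hh_big al t (by unfold Big; omega)] at h2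
  have h3 : ∑ k ∈ As al π, han (inst al t) (al.length + 2 + 2 * k) = ∑ k ∈ As al π, aa al k := by
    refine Finset.sum_congr rfl ?_
    intro k hk
    unfold As at hk
    rw [Finset.mem_filter, Finset.mem_range] at hk
    rw [han_inst al t (by omega), hh_small]
  rw [h3] at h2
  have h4 : 2 * al.sum ≤ ∑ b ∈ Finset.range (3 * al.length + 2), fwd (inst al t) b *
      chg b (inst al t).2.1 0 (aft 0 π) := by
    refine le_trans ?_ (sum_emb al t (fun b => chg b (inst al t).2.1 0 (aft 0 π)))
    rw [sum_eq, Finset.mul_sum]
    refine Finset.sum_le_sum ?_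
    intro k hk
    rw [Finset.mem_range] at hk
    have h2 := chg_step (b := al.length + 1 + 2 * k) (o := 0) (nd al t hπ hK)
      (ord_last al t hπ hK)
    have h3 := cr_le_chg (al.length + 1 + 2 * k) 0 (aft (3 * al.length + 1) π) (3 * al.length + 1)
    rw [cr_left (by omega) (by omega)] at h2
    rw [cr_right (by omega) (by omega)] at h3
    rw [mul_comm 2]
    refine Nat.mul_le_mul_left _ ?_
    change 2 ≤ chg (al.length + 1 + 2 * k) 0 0 (aft 0 π)
    omega
  have h5 : rr al t 0 = 2 * al.length * HH al t + Dl al t := by
    unfold rr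
    rw [if_pos rfl]
  rw [h5, hh_big al t (by unfold Big; omega)] at h1
  have h6 : VV al t = Dl al t + 2 * al.sum + t := rfl
  have h7 : (2 * al.length + 2) * HH al t = 2 * al.length * HH al t + 2 * HH al t := by ring
  omega

/-- **A schedule with completion time at most `K` gives a solution of subset sum.** -/
theorem exists_of_schedule (ht : t ≤ al.sum) :
    ∃ A : Finset ℕ, A ⊆ Finset.range al.length ∧ ∑ k ∈ A, aa al k = t := by
  classical
  refine ⟨As al π, Finset.filter_subset _ _, ?_⟩
  have h1 := sum_As al t hπ hK ht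
  have h2 := sum_Bs al t hπ hK ht
  have h3 : ∑ k ∈ Bs al π, aa al k + ∑ k ∈ As al π, aa al k = al.sum := by
    unfold As Bs
    rw [sum_eq]
    exact Finset.sum_filter_add_sum_filter_not _ _ _
  omega

end

end Pool.Agent.Q321.VS
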