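import Mathlib
import Pool.Agent.Q321.VS.Low

/-!
# A solution of subset sum gives a good schedule
-/

namespace Pool.Agent.Q321.VS

/-- one phase of the schedule -/
def ph (n : ℕ) (B : ℕ → Bool) (i : ℕ) : List ℕ :=
  (i + 1) :: (if B i then [n + 2 + 2 * i, n + 1 + 2 * i] else [n + 1 + 2 * i])

/-- the phases before the job of the start vertex -/
def phs (n : ℕ) (B : ℕ → Bool) : ℕ → List ℕ
  | 0 => []
  | m + 1 => ph n B m ++ phs n B m

/-- the small jobs of the last trip -/
def dn (n : ℕ) (B : ℕ → Bool) : ℕ → List ℕ
  | 0 => []
  | m + 1 => (if B m then [] else [n + 2 + 2 * m]) ++ dn n B m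

/-- the schedule -/
def sch (n : ℕ) (B : ℕ → Bool) : List ℕ := phs n B n ++ 0 :: (3 * n + 1) :: dn n B n

theorem length_sch_aux (n : ℕ) (B : ℕ → Bool) (m : ℕ) :
    (phs n B m).length + (dn n B m).length = 3 * m := by
  induction m with
  | zero => rfl
  | succ m ih =>
    simp only [phs, dn, ph, List.length_append, List.length_cons]
    split_ifs <;> simp <;> omega

theorem mem_phs {n : ℕ} (B : ℕ → Bool) {m i : ℕ} (hi : i < m) :
    i + 1 ∈ phs n B m ∧ n + 1 + 2 * i ∈ phs n B m := by
  induction m with
  | zero => omega
  | succ m ih =>
    simp only [phs, List.mem_append]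
    by_cases h : i = m
    · subst h
      constructor
      · left; exact List.mem_cons_self
      · left
        unfold ph
        split_ifs <;> simp
    · have := ih (by omega)
      exact ⟨Or.inr this.1, Or.inr this.2⟩

theorem mem_small {n : ℕ} (B : ℕ → Bool) {m i : ℕ} (hi : i < m) :
    n + 2 + 2 * i ∈ phs n B m ∨ n + 2 + 2 * i ∈ dn n B m := by
  induction m with
  | zero => omega
  | succ m ih =>
    simp only [phs, dn, List.mem_append]
    by_cases h : i = m
    · subst h
      by_cases hB : B i
      · left; left
        unfold ph
        rw [if_pos hB]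
        simp
      · right; left
        rw [if_neg hB]
        simp
    · rcases ih (by omega) with h | h
      · exact Or.inl (Or.inr h)
      · exact Or.inr (Or.inr h)

theorem sch_perm (n : ℕ) (B : ℕ → Bool) : (sch n B).Perm (List.range (3 * n + 2)) := by
  symm
  refine List.Subperm.perm_of_length_le (List.subperm_of_subset List.nodup_range ?_) ?_
  · intro v hv
    rw [List.mem_range] at hv
    unfold sch
    rw [List.mem_append, List.mem_cons, List.mem_cons]
    by_cases h0 : v = 0
    · right; left; exact h0
    by_cases h1 : v = 3 * n + 1
    · right; right; left; exact h1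
    by_cases h2 : v ≤ n
    · left
      have := (mem_phs (n := n) B (m := n) (i := v - 1) (by omega)).1
      have e : v - 1 + 1 = v := by omega
      rwa [e] at this
    by_cases h3 : (v - n) % 2 = 1
    · left
      have := (mem_phs (n := n) B (m := n) (i := (v - n - 1) / 2) (by omega)).2
      have e : n + 1 + 2 * ((v - n - 1) / 2) = v := by omega
      rwa [e] at this
    · have := mem_small (n := n) B (m := n) (i := (v - n - 2) / 2) (by omega)
      have e : n + 2 + 2 * ((v - n - 2) / 2) = v := by omega
      rw [e] at this
      rcases this with h | h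
      · exact Or.inl h
      · exact Or.inr (Or.inr (Or.inr h))
  · unfold sch
    have := length_sch_aux n B n
    simp only [List.length_append, List.length_cons, List.length_range]
    omega

section

variable (al : List ℕ) (t : ℕ) (B : ℕ → Bool)

theorem sg_mono {i j : ℕ} (h : i ≤ j) : sg al i ≤ sg al j := by
  rw [sg_eq_sum, sg_eq_sum]
  exact Finset.sum_le_sum_of_subset (Finset.range_subset_range.2 h)

theorem travel_zero (u : ℕ) : travel (inst al t) u 0 = sg al ((u - al.length) / 2) := by
  rw [travel_inst]
  have : (0 - al.length) / 2 = 0 := by omega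
  rw [this, sg_zero]
  omega

theorem travel_small (u : ℕ) {v : ℕ} (hv : v ≤ al.length + 1) :
    travel (inst al t) u v = sg al ((u - al.length) / 2) := by
  rw [travel_inst]
  have : (v - al.length) / 2 = 0 := by omega
  rw [this, sg_zero]
  omega

theorem travel_small' {u : ℕ} (hu : u ≤ al.length + 1) (v : ℕ) :
    travel (inst al t) u v = sg al ((v - al.length) / 2) := by
  rw [travel_inst]
  have : (u - al.length) / 2 = 0 := by omega
  rw [this, sg_zero]
  omega

/-- One phase. -/
theorem finish_ph {i : ℕ} (hi : i < al.length) (t0 p : ℕ) (L : List ℕ)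
    (h : 2 * (al.length - (i + 1)) * HH al t ≤ t0 + travel (inst al t) p 0) :
    ∃ t1, finish (inst al t) t0 p (ph al.length B i ++ L) =
      finish (inst al t) t1 (al.length + 1 + 2 * i) L ∧
      t1 + travel (inst al t) (al.length + 1 + 2 * i) 0 =
        t0 + travel (inst al t) p 0 + 2 * HH al t + 2 * sg al i +
          3 * (if B i then aa al i else 0) := by
  have hr1 : rel (inst al t) (i + 1) = 2 * (al.length - (i + 1)) * HH al t := by
    rw [rel_inst al t (by omega)]
    unfold rr
    rw [if_neg (by omega), if_pos (by omega)]
  have hr2 : rel (inst al t) (al.length + 1 + 2 * i) =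
      (2 * (al.length - (i + 1)) + 1) * HH al t := by
    rw [rel_inst al t (by omega)]
    unfold rr
    rw [if_neg (by omega), if_neg (by omega), if_neg (by omega), if_pos (by omega)]
    congr 1
    omega
  have hr3 : rel (inst al t) (al.length + 2 + 2 * i) =
      (2 * (al.length - (i + 1)) + 1) * HH al t := by
    rw [rel_inst al t (by omega)]
    unfold rr
    rw [if_neg (by omega), if_neg (by omega), if_neg (by omega), if_neg (by omega)]
    congr 1
    omega
  have hh1 : han (inst al t) (i + 1) = HH al t := by
    rw [han_inst al t (by omega), hh_big al t (by unfold Big; omega)]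
  have hh2 : han (inst al t) (al.length + 1 + 2 * i) = HH al t := by
    rw [han_inst al t (by omega), hh_big al t (by unfold Big; omega)]
  have hh3 : han (inst al t) (al.length + 2 + 2 * i) = aa al i := by
    rw [han_inst al t (by omega), hh_small]
  have e1 : (al.length + 1 + 2 * i - al.length) / 2 = i := by omega
  have e2 : (al.length + 2 + 2 * i - al.length) / 2 = i + 1 := by omega
  have ht1 : travel (inst al t) p (i + 1) = travel (inst al t) p 0 := by
    rw [travel_zero, travel_small al t p (by omega)]
  have ht2 : travel (inst al t) (i + 1) (al.length + 1 + 2 * i) = sg al i := by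
    rw [travel_small' al t (by omega), e1]
  have ht3 : travel (inst al t) (i + 1) (al.length + 2 + 2 * i) = sg al i + aa al i := by
    rw [travel_small' al t (by omega), e2, sg_succ]
  have ht4 : travel (inst al t) (al.length + 2 + 2 * i) (al.length + 1 + 2 * i) = aa al i := by
    rw [travel_inst, e1, e2, sg_succ]
    omega
  have ht5 : travel (inst al t) (al.length + 1 + 2 * i) 0 = sg al i := by
    rw [travel_zero, e1]
  have hm : (2 * (al.length - (i + 1)) + 1) * HH al t =
      2 * (al.length - (i + 1)) * HH al t + HH al t := by ring
  unfold ph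
  by_cases hB : B i
  · rw [if_pos hB, if_pos hB]
    simp only [List.cons_append, List.nil_append, finish, hr1, hr2, hr3, hh1, hh2, hh3, ht1, ht3,
      ht4, hm]
    refine ⟨_, rfl, ?_⟩
    rw [ht5]
    omega
  · rw [if_neg hB, if_neg hB]
    simp only [List.cons_append, List.nil_append, finish, hr1, hr2, hh1, hh2, ht1, ht2, hm]
    refine ⟨_, rfl, ?_⟩
    rw [ht5]
    omega

/-- All the phases. -/
theorem finish_phs (L : List ℕ) : ∀ m ≤ al.length, ∀ t0 p : ℕ,
    2 * (al.length - m) * HH al t ≤ t0 + travel (inst al t) p 0 →
    ∃ t1 q, finish (inst al t) t0 p (phs al.length B m ++ L) = finish (inst al t) t1 q L ∧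
      t1 + travel (inst al t) q 0 = t0 + travel (inst al t) p 0 + 2 * m * HH al t +
        2 * ∑ i ∈ Finset.range m, sg al i +
        3 * ∑ i ∈ Finset.range m, (if B i then aa al i else 0) := by
  intro m
  induction m with
  | zero =>
    intro _ t0 p _
    exact ⟨t0, p, rfl, by simp⟩
  | succ m ih =>
    intro hm t0 p h
    obtain ⟨t1, h1, h2⟩ := finish_ph al t B (i := m) (by omega) t0 p (phs al.length B m ++ L) h
    have e1 : 2 * (al.length - m) * HH al t =
        2 * (al.length - (m + 1)) * HH al t + 2 * HH al t := by
      have : al.length - m = al.length - (m + 1) + 1 := by omega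
      rw [this]
      ring
    obtain ⟨t2, q, h3, h4⟩ := ih (by omega) t1 (al.length + 1 + 2 * m) (by omega)
    refine ⟨t2, q, ?_, ?_⟩
    · rw [phs, List.append_assoc, h1, h3]
    · rw [h4, h2, Finset.sum_range_succ, Finset.sum_range_succ]
      ring

/-- The last trip. -/
theorem finish_dn : ∀ m ≤ al.length, ∀ t0 p : ℕ, (2 * al.length + 1) * HH al t ≤ t0 →
    m ≤ (p - al.length) / 2 →
    finish (inst al t) t0 p (dn al.length B m) = t0 + sg al ((p - al.length) / 2) +
      ∑ i ∈ Finset.range m, (if B i then 0 else aa al i) := by
  intro m
  induction m with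
  | zero =>
    intro _ t0 p _ _
    simp only [dn, finish]
    rw [show (inst al t).2.1 = 0 from rfl, travel_zero]
    simp
  | succ m ih =>
    intro hm t0 p h hp
    rw [dn, Finset.sum_range_succ]
    by_cases hB : B m
    · rw [if_pos hB, if_pos hB, List.nil_append, ih (by omega) t0 p h (by omega)]
      rfl
    · rw [if_neg hB, if_neg hB]
      simp only [List.cons_append, List.nil_append, finish]
      have hr : rel (inst al t) (al.length + 2 + 2 * m) ≤ t0 := by
        refine le_trans ?_ h
        rw [rel_inst al t (by omega)]
        unfold rr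
        rw [if_neg (by omega), if_neg (by omega), if_neg (by omega), if_neg (by omega)]
        exact Nat.mul_le_mul_right _ (by omega)
      have hh3 : han (inst al t) (al.length + 2 + 2 * m) = aa al m := by
        rw [han_inst al t (by omega), hh_small]
      have e2 : (al.length + 2 + 2 * m - al.length) / 2 = m + 1 := by omega
      have ht : travel (inst al t) p (al.length + 2 + 2 * m) =
          sg al ((p - al.length) / 2) - sg al (m + 1) := by
        rw [travel_inst, e2]
        have := sg_mono al (show m + 1 ≤ (p - al.length) / 2 from hp)
        omega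
      have hle := sg_mono al (show m + 1 ≤ (p - al.length) / 2 from hp)
      rw [hh3, ht, ih (by omega) _ _ (by omega) (by omega), e2]
      omega

/-- **A solution of subset sum gives a schedule with completion time `K`.** -/
theorem completion_sch (ht : t ≤ al.sum)
    (hB : ∑ i ∈ Finset.range al.length, (if B i then 0 else aa al i) = t) :
    completion (inst al t) (sch al.length B) = (inst al t).2.2 := by
  have hB2 : ∑ i ∈ Finset.range al.length, (if B i then aa al i else 0) = al.sum - t := by
    have h1 : ∑ i ∈ Finset.range al.length, (if B i then aa al i else 0) +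
        ∑ i ∈ Finset.range al.length, (if B i then 0 else aa al i) = al.sum := by
      rw [← Finset.sum_add_distrib, sum_eq]
      refine Finset.sum_congr rfl ?_
      intro i _
      split_ifs <;> simp
    omega
  have hE : EE al = 2 * ∑ i ∈ Finset.range al.length, sg al i := by
    unfold EE
    congr 1
  unfold completion sch
  rw [show (inst al t).2.1 = 0 from rfl]
  obtain ⟨t1, q, h1, h2⟩ := finish_phs al t B (0 :: (3 * al.length + 1) :: dn al.length B al.length)
    al.length le_rfl 0 0 (by simp)
  rw [h1]
  have h3 : t1 + travel (inst al t) q 0 = 2 * al.length * HH al t + Dl al t := by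
    rw [h2, hB2, travel_zero]
    have : (0 - al.length) / 2 = 0 := by omega
    rw [this, sg_zero]
    unfold Dl
    omega
  simp only [finish]
  have hr0 : rel (inst al t) 0 = 2 * al.length * HH al t + Dl al t := by
    rw [rel_inst al t (by omega)]
    unfold rr
    rw [if_pos rfl]
  have hh0 : han (inst al t) 0 = HH al t := by
    rw [han_inst al t (by omega), hh_big al t (by unfold Big; omega)]
  have hr1 : rel (inst al t) (3 * al.length + 1) = (2 * al.length + 1) * HH al t := by
    rw [rel_inst al t (by omega)]
    unfold rr
    by_cases hn : al.length = 0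
    · rw [if_neg (by omega), if_neg (by omega), if_pos rfl]
    · rw [if_neg (by omega), if_neg (by omega), if_pos rfl]
  have hh1 : han (inst al t) (3 * al.length + 1) = HH al t := by
    rw [han_inst al t (by omega), hh_big al t (by unfold Big; omega)]
  have e3 : (3 * al.length + 1 - al.length) / 2 = al.length := by omega
  have ht1 : travel (inst al t) 0 (3 * al.length + 1) = al.sum := by
    rw [travel_small' al t (by omega), e3, sg_length]
  rw [h3, hr0, hh0, hr1, hh1, ht1]
  have hm : (2 * al.length + 1) * HH al t = 2 * al.length * HH al t + HH al t := by ring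
  have hm2 : (2 * al.length + 2) * HH al t = 2 * al.length * HH al t + 2 * HH al t := by ring
  rw [finish_dn al t B al.length le_rfl _ _ (by rw [hm]; omega) (by omega), e3, sg_length, hB, hm]
  change _ = (2 * al.length + 2) * HH al t + VV al t
  rw [hm2]
  have : VV al t = Dl al t + 2 * al.sum + t := rfl
  omega

end

end Pool.Agent.Q321.VS
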