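import Mathlib
import Pool.Agent.Q321.VS.Up

/-!
# Making all travel times positive
-/

namespace Pool.Agent.Q321.VS

/-- the factor -/
def MM (x : Inst) : ℕ := x.1.length * (x.1.length + 1) + 1

/-- the data of a vertex of the perturbed instance -/
def pv (M : ℕ) (v : Vx) : Vx := (M * v.1, M * v.2.1, M * v.2.2.1 + 1, M * v.2.2.2 + 1)

/-- All numbers are multiplied by a large factor and the travel times of the edges are increased
by one. -/
def pert (x : Inst) : Inst :=
  (x.1.map (pv (MM x)), x.2.1, MM x * x.2.2 + x.1.length * (x.1.length + 1))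

theorem MM_pos (x : Inst) : 0 < MM x := Nat.succ_pos _

theorem getD_pert (x : Inst) {v : ℕ} (hv : v < x.1.length) :
    (pert x).1.getD v (0, 0, 0, 0) = pv (MM x) (x.1.getD v (0, 0, 0, 0)) := by
  unfold pert
  simp only
  rw [List.getD_eq_getElem?_getD, List.getD_eq_getElem?_getD, List.getElem?_map,
    List.getElem?_eq_getElem hv]
  rfl

theorem getD_pert_ge (x : Inst) {v : ℕ} (hv : x.1.length ≤ v) :
    (pert x).1.getD v (0, 0, 0, 0) = (0, 0, 0, 0) := by
  unfold pert
  simp only
  rw [List.getD_eq_getElem?_getD, List.getElem?_eq_none (by rw [List.length_map]; exact hv)]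
  rfl

theorem getD_ge (x : Inst) {v : ℕ} (hv : x.1.length ≤ v) :
    x.1.getD v (0, 0, 0, 0) = (0, 0, 0, 0) := by
  rw [List.getD_eq_getElem?_getD, List.getElem?_eq_none hv]
  rfl

theorem rel_pert (x : Inst) (v : ℕ) : rel (pert x) v = MM x * rel x v := by
  unfold rel
  by_cases hv : v < x.1.length
  · rw [getD_pert x hv]
    rfl
  · rw [getD_pert_ge x (by omega), getD_ge x (by omega)]
    simp

theorem han_pert (x : Inst) (v : ℕ) : han (pert x) v = MM x * han x v := by
  unfold han
  by_cases hv : v < x.1.length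
  · rw [getD_pert x hv]
    rfl
  · rw [getD_pert_ge x (by omega), getD_ge x (by omega)]
    simp

theorem fwd_pert (x : Inst) (v : ℕ) :
    MM x * fwd x v ≤ fwd (pert x) v ∧ fwd (pert x) v ≤ MM x * fwd x v + 1 := by
  unfold fwd
  by_cases hv : v < x.1.length
  · rw [getD_pert x hv]
    unfold pv
    simp only
    omega
  · rw [getD_pert_ge x (by omega), getD_ge x (by omega)]
    simp

theorem bwd_pert (x : Inst) (v : ℕ) :
    MM x * bwd x v ≤ bwd (pert x) v ∧ bwd (pert x) v ≤ MM x * bwd x v + 1 := by
  unfold bwd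
  by_cases hv : v < x.1.length
  · rw [getD_pert x hv]
    unfold pv
    simp only
    omega
  · rw [getD_pert_ge x (by omega), getD_ge x (by omega)]
    simp

theorem travel_pert_ge (x : Inst) (u v : ℕ) : MM x * travel x u v ≤ travel (pert x) u v := by
  unfold travel
  rw [mul_add, Finset.mul_sum, Finset.mul_sum]
  exact Nat.add_le_add (Finset.sum_le_sum fun k _ => (fwd_pert x k).1)
    (Finset.sum_le_sum fun k _ => (bwd_pert x k).1)

theorem travel_pert_le (x : Inst) {u v N : ℕ} (hu : u ≤ N) (hv : v ≤ N) :
    travel (pert x) u v ≤ MM x * travel x u v + N := by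
  unfold travel
  rw [mul_add, Finset.mul_sum, Finset.mul_sum]
  have h1 : ∑ k ∈ Finset.Ico u v, fwd (pert x) k ≤
      ∑ k ∈ Finset.Ico u v, MM x * fwd x k + (v - u) := by
    have := Finset.sum_le_sum (s := Finset.Ico u v) (fun k _ => (fwd_pert x k).2)
    rw [Finset.sum_add_distrib] at this
    simpa using this
  have h2 : ∑ k ∈ Finset.Ico v u, bwd (pert x) k ≤
      ∑ k ∈ Finset.Ico v u, MM x * bwd x k + (u - v) := by
    have := Finset.sum_le_sum (s := Finset.Ico v u) (fun k _ => (bwd_pert x k).2)
    rw [Finset.sum_add_distrib] at this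
    simpa using this
  omega

theorem finish_pert_ge (x : Inst) (π : List ℕ) : ∀ t t' p : ℕ, MM x * t ≤ t' →
    MM x * finish x t p π ≤ finish (pert x) t' p π := by
  induction π with
  | nil =>
    intro t t' p h
    simp only [finish]
    have := travel_pert_ge x p x.2.1
    rw [mul_add]
    change _ ≤ t' + travel (pert x) p x.2.1
    omega
  | cons j π ih =>
    intro t t' p h
    simp only [finish]
    refine ih _ _ _ ?_
    rw [rel_pert, han_pert, mul_add, ← Nat.mul_max_mul_left, mul_add]
    have := travel_pert_ge x p j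
    omega

theorem finish_pert_le (x : Inst) {N : ℕ} (h0 : x.2.1 ≤ N) (π : List ℕ) (hπ : ∀ j ∈ π, j ≤ N) :
    ∀ t t' c p : ℕ, p ≤ N → t' ≤ MM x * t + c →
    finish (pert x) t' p π ≤ MM x * finish x t p π + c + N * (π.length + 1) := by
  induction π with
  | nil =>
    intro t t' c p hp h
    simp only [finish]
    have := travel_pert_le x hp h0
    rw [mul_add]
    change t' + travel (pert x) p x.2.1 ≤ _
    simp only [List.length_nil]
    omega
  | cons j π ih =>
    intro t t' c p hp h
    simp only [finish, List.length_cons]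
    have hj := hπ j List.mem_cons_self
    have h1 := travel_pert_le x hp hj
    refine le_trans (ih (fun k hk => hπ k (List.mem_cons_of_mem _ hk))
      (max (t + travel x p j) (rel x j) + han x j) _ (c + N) j hj ?_) ?_
    · rw [rel_pert, han_pert, mul_add, ← Nat.mul_max_mul_left, mul_add]
      omega
    · have : N * (π.length + 1 + 1) = N * (π.length + 1) + N := by ring
      omega

/-- The perturbed instance is equivalent to the instance. -/
theorem pert_iff (x : Inst) (h0 : x.2.1 < x.1.length) {π : List ℕ}
    (hπ : π.Perm (List.range x.1.length)) :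
    completion (pert x) π ≤ (pert x).2.2 ↔ completion x π ≤ x.2.2 := by
  have hlen : π.length = x.1.length := by
    rw [hπ.length_eq, List.length_range]
  constructor
  · intro h
    have h1 : MM x * completion x π ≤ completion (pert x) π :=
      finish_pert_ge x π 0 0 x.2.1 (by simp)
    have h2 : (pert x).2.2 < MM x * (x.2.2 + 1) := by
      change MM x * x.2.2 + x.1.length * (x.1.length + 1) < _
      have hM : x.1.length * (x.1.length + 1) < MM x := Nat.lt_succ_self _
      rw [mul_add (MM x), mul_one]
      exact Nat.add_lt_add_left hM _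
    have h3 : MM x * completion x π < MM x * (x.2.2 + 1) := lt_of_le_of_lt (h1.trans h) h2
    have := Nat.lt_of_mul_lt_mul_left h3
    omega
  · intro h
    have h1 : completion (pert x) π ≤ MM x * completion x π + 0 +
        x.1.length * (π.length + 1) :=
      finish_pert_le x h0.le π (fun j hj => (List.mem_range.1 (hπ.mem_iff.1 hj)).le) 0 0 0 x.2.1
        h0.le (by simp)
    have h2 : MM x * completion x π ≤ MM x * x.2.2 := Nat.mul_le_mul_left _ h
    rw [hlen] at h1
    change _ ≤ MM x * x.2.2 + x.1.length * (x.1.length + 1)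
    omega

theorem length_pert (x : Inst) : (pert x).1.length = x.1.length := by
  unfold pert
  simp

theorem pathVSP_pert (x : Inst) : PathVSP (pert x) ↔ PathVSP x := by
  unfold PathVSP
  rw [length_pert]
  constructor
  · rintro ⟨h0, hh, π, hπ, hK⟩
    refine ⟨h0, ?_, π, hπ, (pert_iff x h0 hπ).1 hK⟩
    intro v hv
    have := hh (pv (MM x) v) (List.mem_map_of_mem hv)
    exact Nat.pos_of_mul_pos_left this
  · rintro ⟨h0, hh, π, hπ, hK⟩
    refine ⟨h0, ?_, π, hπ, (pert_iff x h0 hπ).2 hK⟩
    intro w hw
    obtain ⟨v, hv, rfl⟩ := List.mem_map.1 hw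
    exact Nat.mul_pos (MM_pos x) (hh v hv)

theorem special_pert (x : Inst) (hs : ∀ v ∈ x.1, v.2.2.1 = v.2.2.2) (h0 : x.2.1 = 0) :
    Special (pert x) := by
  refine ⟨?_, h0⟩
  intro w hw
  obtain ⟨v, hv, rfl⟩ := List.mem_map.1 hw
  unfold pv
  simp only
  rw [hs v hv]
  exact ⟨Nat.succ_pos _, rfl⟩

end Pool.Agent.Q321.VS
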