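import Mathlib
import Pool.Agent.Q321.VS.Pert
import Pool.Agent.H671R2.SubsetSum
import Pool.Agent.H671R2.PolyAuto
import Pool.Agent.H601R2.PP
import Pool.Agent.NPC.Dec

/-!
# The reduction from subset sum, and membership in NP
-/

namespace Pool.Agent.Q321.VS

open Pool.Agent.NPC Pool.Agent.NPC.R671.SS

/-! ### Correctness -/

theorem subset_iff (l : List ℕ) : ∀ t : ℕ, (∃ s : List ℕ, s.Sublist l ∧ s.sum = t) ↔
    ∃ A : ℕ → Bool, ∑ k ∈ Finset.range l.length, (if A k then aa l k else 0) = t := by
  induction l with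
  | nil =>
    intro t
    constructor
    · rintro ⟨s, hs, rfl⟩
      rw [List.sublist_nil] at hs
      subst hs
      exact ⟨fun _ => true, rfl⟩
    · rintro ⟨A, rfl⟩
      exact ⟨[], List.Sublist.refl _, rfl⟩
  | cons a l ih =>
    intro t
    constructor
    · rintro ⟨s, hs, rfl⟩
      rcases List.sublist_cons_iff.1 hs with h | ⟨r, rfl, h⟩
      · obtain ⟨A, hA⟩ := (ih s.sum).1 ⟨s, h, rfl⟩
        refine ⟨fun k => match k with | 0 => false | k + 1 => A k, ?_⟩
        rw [List.length_cons, Finset.sum_range_succ']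
        simpa using hA
      · obtain ⟨A, hA⟩ := (ih r.sum).1 ⟨r, h, rfl⟩
        refine ⟨fun k => match k with | 0 => true | k + 1 => A k, ?_⟩
        rw [List.length_cons, Finset.sum_range_succ', List.sum_cons, ← hA]
        simp [add_comm]
    · rintro ⟨A, hA⟩
      rw [List.length_cons, Finset.sum_range_succ'] at hA
      obtain ⟨s, hs, hs2⟩ := (ih _).2 ⟨fun k => A (k + 1), rfl⟩
      by_cases h : A 0
      · refine ⟨a :: s, hs.cons_cons a, ?_⟩
        rw [List.sum_cons, hs2, ← hA, if_pos h]
        simp [add_comm]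
      · refine ⟨s, hs.cons a, ?_⟩
        rw [hs2, ← hA, if_neg h]
        simp

/-- the reduction -/
def red (x : List ℕ × ℕ) : Inst := pert (inst x.1 x.2)

theorem red_correct (x : List ℕ × ℕ) (hx : Nice x) : SubsetSum x ↔ PathVSP (red x) := by
  obtain ⟨al, t⟩ := x
  obtain ⟨hpos, hlt⟩ := hx
  simp only at hpos hlt
  unfold red SubsetSum
  rw [pathVSP_pert, subset_iff]
  have hl : (inst al t).1.length = 3 * al.length + 2 := by
    unfold inst
    simp
  unfold PathVSP
  rw [hl]
  constructor
  · rintro ⟨A, hA⟩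
    change ∑ k ∈ Finset.range al.length, (if A k then aa al k else 0) = t at hA
    refine ⟨by change 0 < _; omega, ?_, sch al.length (fun k => !A k), sch_perm _ _, ?_⟩
    · intro v hv
      unfold inst at hv
      rw [List.mem_map] at hv
      obtain ⟨i, hi, rfl⟩ := hv
      rw [List.mem_range] at hi
      change i < 3 * al.length + 2 at hi
      change 0 < hh al t i
      by_cases hB : Big al.length i
      · rw [hh_big al t hB]
        exact Nat.succ_pos _
      · unfold hh
        rw [if_neg hB]
        unfold Big at hB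
        have hk : (i - al.length) / 2 - 1 < al.length := by omega
        rw [List.getD_eq_getElem?_getD, List.getElem?_eq_getElem hk]
        exact (hpos _ (List.getElem_mem hk)).1
    · refine (completion_sch al t (fun k => !A k) hlt.le ?_).le
      rw [← hA]
      refine Finset.sum_congr rfl ?_
      intro i _
      cases A i <;> simp
  · rintro ⟨_, _, π, hπ, hK⟩
    obtain ⟨A, hA, hsum⟩ := exists_of_schedule al t hπ hK hlt.le
    refine ⟨fun k => decide (k ∈ A), ?_⟩
    simp only at hsum ⊢
    rw [← hsum, ← Finset.sum_filter]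
    refine Finset.sum_congr ?_ (fun _ _ => rfl)
    ext k
    simp only [decide_eq_true_eq, Finset.mem_filter]
    exact ⟨fun h => h.2, fun h => ⟨hA h, h⟩⟩

theorem red_special (x : List ℕ × ℕ) : Special (red x) := by
  refine special_pert _ ?_ rfl
  intro v hv
  unfold inst at hv
  rw [List.mem_map] at hv
  obtain ⟨i, _, rfl⟩ := hv
  rfl

/-! ### The reduction can be computed in polynomial time -/

variable {α : Type} [TEnc α]

theorem EE_list (al : List ℕ) : EE al =
    ((List.range al.length).map (fun k => al.getD k 0 * (2 * (al.length - 1 - k)))).sum := by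
  rw [EE_eq]
  rfl

theorem poly_EE {f : α → List ℕ} (hf : NPC.Poly f) : NPC.Poly (fun a => EE (f a)) := by
  have h : NPC.Poly (fun a => ((List.range (f a).length).map (fun k => (f a).getD k 0 *
      (2 * ((f a).length - 1 - k)))).sum) := by
    refine NPC.Poly.sum (NPC.Poly.map (F := fun a k => (f a).getD k 0 *
      (2 * ((f a).length - 1 - k))) (NPC.Poly.range_length hf) ?_)
    fun_prop
  exact h.congr fun a => (EE_list _).symm

attribute [fun_prop] poly_EE

theorem poly_Dl {f : α → List ℕ} {g : α → ℕ} (hf : NPC.Poly f) (hg : NPC.Poly g) :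
    NPC.Poly (fun a => Dl (f a) (g a)) := by
  unfold Dl
  fun_prop

attribute [fun_prop] poly_Dl

theorem poly_VV {f : α → List ℕ} {g : α → ℕ} (hf : NPC.Poly f) (hg : NPC.Poly g) :
    NPC.Poly (fun a => VV (f a) (g a)) := by
  unfold VV
  fun_prop

attribute [fun_prop] poly_VV

theorem poly_HH {f : α → List ℕ} {g : α → ℕ} (hf : NPC.Poly f) (hg : NPC.Poly g) :
    NPC.Poly (fun a => HH (f a) (g a)) := by
  unfold HH
  fun_prop

attribute [fun_prop] poly_HH

attribute [local irreducible] HH Dl VV EE

theorem poly_rr {f : α → List ℕ} {g h : α → ℕ} (hf : NPC.Poly f) (hg : NPC.Poly g)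
    (hh : NPC.Poly h) : NPC.Poly (fun a => rr (f a) (g a) (h a)) := by
  unfold rr
  fun_prop

theorem poly_hh {f : α → List ℕ} {g h : α → ℕ} (hf : NPC.Poly f) (hg : NPC.Poly g)
    (hh' : NPC.Poly h) : NPC.Poly (fun a => hh (f a) (g a) (h a)) := by
  unfold hh Big
  fun_prop

theorem poly_ff {f : α → List ℕ} {h : α → ℕ} (hf : NPC.Poly f)
    (hh' : NPC.Poly h) : NPC.Poly (fun a => ff (f a) (h a)) := by
  unfold ff
  fun_prop

attribute [fun_prop] poly_rr poly_hh poly_ff

attribute [local irreducible] rr hh ff

theorem poly_inst : NPC.Poly (fun x : List ℕ × ℕ => inst x.1 x.2) := by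
  unfold inst
  refine NPC.Poly.pair ?_ (by fun_prop)
  refine NPC.Poly.map (l := fun x : List ℕ × ℕ => List.range (3 * x.1.length + 2))
    (F := fun x v => vx x.1 x.2 v) ?_ ?_
  · exact (((UPoly.const 3).mul (UPoly.length (NPC.Poly.fst NPC.Poly.id))).add
      (UPoly.const 2)).range
  · unfold vx
    fun_prop

theorem poly_pert : NPC.Poly pert := by
  unfold pert pv MM
  fun_prop

theorem poly_red : NPC.Poly red := poly_pert.comp poly_inst

theorem hardPr_PathVSP : HardPr Special PathVSP :=
  hardPr_SubsetSum.trans poly_red (fun x _ => red_special x) (fun x hx => red_correct x hx)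

end Pool.Agent.Q321.VS
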