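import Mathlib
import Pool.Agent.Q321.VS.Fin

/-!
# Membership in NP
-/

namespace Pool.Agent.Q321.VS

open Pool.Agent.NPC

variable {α : Type} [TEnc α]

theorem poly_rel {x : α → Inst} {i : α → ℕ} (hx : NPC.Poly x) (hi : NPC.Poly i) :
    NPC.Poly (fun a => rel (x a) (i a)) := by
  unfold rel
  fun_prop

theorem poly_han {x : α → Inst} {i : α → ℕ} (hx : NPC.Poly x) (hi : NPC.Poly i) :
    NPC.Poly (fun a => han (x a) (i a)) := by
  unfold han
  fun_prop

theorem poly_fwd {x : α → Inst} {i : α → ℕ} (hx : NPC.Poly x) (hi : NPC.Poly i) :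
    NPC.Poly (fun a => fwd (x a) (i a)) := by
  unfold fwd
  fun_prop

theorem poly_bwd {x : α → Inst} {i : α → ℕ} (hx : NPC.Poly x) (hi : NPC.Poly i) :
    NPC.Poly (fun a => bwd (x a) (i a)) := by
  unfold bwd
  fun_prop

attribute [fun_prop] poly_rel poly_han poly_fwd poly_bwd

theorem fwd_zero (x : Inst) {k : ℕ} (hk : x.1.length ≤ k) : fwd x k = 0 := by
  unfold fwd
  rw [getD_ge x hk]

theorem bwd_zero (x : Inst) {k : ℕ} (hk : x.1.length ≤ k) : bwd x k = 0 := by
  unfold bwd
  rw [getD_ge x hk]

theorem travel_list (x : Inst) (i j : ℕ) : travel x i j =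
    ((List.range x.1.length).map (fun k => (if i ≤ k ∧ k < j then fwd x k else 0) +
      (if j ≤ k ∧ k < i then bwd x k else 0))).sum := by
  have h : ((List.range x.1.length).map (fun k => (if i ≤ k ∧ k < j then fwd x k else 0) +
      (if j ≤ k ∧ k < i then bwd x k else 0))).sum =
      ∑ k ∈ Finset.range x.1.length, ((if i ≤ k ∧ k < j then fwd x k else 0) +
      (if j ≤ k ∧ k < i then bwd x k else 0)) := rfl
  rw [h, Finset.sum_add_distrib, ← Finset.sum_filter, ← Finset.sum_filter]
  unfold travel
  congr 1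
  · refine (Finset.sum_subset ?_ ?_).symm
    · intro k hk
      rw [Finset.mem_filter] at hk
      rw [Finset.mem_Ico]
      exact hk.2
    · intro k hk hk2
      rw [Finset.mem_Ico] at hk
      rw [Finset.mem_filter, Finset.mem_range] at hk2
      exact fwd_zero x (by
        by_contra hc
        exact hk2 ⟨by omega, hk⟩)
  · refine (Finset.sum_subset ?_ ?_).symm
    · intro k hk
      rw [Finset.mem_filter] at hk
      rw [Finset.mem_Ico]
      exact hk.2
    · intro k hk hk2
      rw [Finset.mem_Ico] at hk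
      rw [Finset.mem_filter, Finset.mem_range] at hk2
      exact bwd_zero x (by
        by_contra hc
        exact hk2 ⟨by omega, hk⟩)

theorem poly_travel {x : α → Inst} {i j : α → ℕ} (hx : NPC.Poly x) (hi : NPC.Poly i)
    (hj : NPC.Poly j) : NPC.Poly (fun a => travel (x a) (i a) (j a)) := by
  have h : NPC.Poly (fun a => ((List.range (x a).1.length).map (fun k =>
      (if i a ≤ k ∧ k < j a then fwd (x a) k else 0) +
      (if j a ≤ k ∧ k < i a then bwd (x a) k else 0))).sum) := by
    refine NPC.Poly.sum (NPC.Poly.map (F := fun a k =>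
      (if i a ≤ k ∧ k < j a then fwd (x a) k else 0) +
      (if j a ≤ k ∧ k < i a then bwd (x a) k else 0)) (NPC.Poly.range_length (by fun_prop)) ?_)
    fun_prop
  exact h.congr fun a => (travel_list _ _ _).symm

attribute [fun_prop] poly_travel

/-- one step -/
def step (x : Inst) (s : ℕ × ℕ) (j : ℕ) : ℕ × ℕ :=
  (max (s.1 + travel x s.2 j) (rel x j) + han x j, j)

theorem finish_foldl (x : Inst) (π : List ℕ) : ∀ t p : ℕ, finish x t p π =
    (π.foldl (step x) (t, p)).1 + travel x (π.foldl (step x) (t, p)).2 x.2.1 := by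
  induction π with
  | nil => intro t p; rfl
  | cons j π ih =>
    intro t p
    simp only [finish, List.foldl_cons]
    exact ih _ _

/-- sum of all the numbers of the instance -/
def WW (x : Inst) : ℕ := (x.1.map (fun v => v.1 + v.2.1 + v.2.2.1 + v.2.2.2)).sum

theorem rel_han_le (x : Inst) (j : ℕ) : rel x j + han x j ≤ WW x := by
  unfold rel han WW
  by_cases h : j < x.1.length
  · rw [List.getD_eq_getElem?_getD, List.getElem?_eq_getElem h]
    have := List.single_le_sum (l := x.1.map (fun v => v.1 + v.2.1 + v.2.2.1 + v.2.2.2))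
      (fun _ _ => Nat.zero_le _) _ (List.mem_map_of_mem (List.getElem_mem h))
    simp only [Option.getD_some]
    omega
  · rw [getD_ge x (by omega)]
    simp

theorem travel_le_WW (x : Inst) (i j : ℕ) : travel x i j ≤ WW x := by
  have hW : WW x = ∑ k ∈ Finset.range x.1.length, (rel x k + han x k + fwd x k + bwd x k) := by
    unfold WW
    rw [Finset.sum_range, ← List.sum_ofFn]
    congr 1
    apply List.ext_getElem
    · simp
    · intro k h1 h2
      simp only [List.length_map] at h1
      simp only [List.getElem_map, List.getElem_ofFn]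
      unfold rel han fwd bwd
      rw [List.getD_eq_getElem?_getD, List.getElem?_eq_getElem h1]
      rfl
  rw [travel_list, hW]
  change ∑ k ∈ Finset.range x.1.length, ((if i ≤ k ∧ k < j then fwd x k else 0) +
      (if j ≤ k ∧ k < i then bwd x k else 0)) ≤ _
  refine Finset.sum_le_sum ?_
  intro k _
  split_ifs <;> omega

theorem foldl_le (x : Inst) (π : List ℕ) : ∀ t p : ℕ,
    (π.foldl (step x) (t, p)).1 ≤ t + π.length * (2 * WW x) ∧
      ((π.foldl (step x) (t, p)).2 = p ∨ (π.foldl (step x) (t, p)).2 ∈ π) := by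
  induction π with
  | nil => intro t p; simp
  | cons j π ih =>
    intro t p
    simp only [List.foldl_cons, List.length_cons]
    obtain ⟨h1, h2⟩ := ih (max (t + travel x p j) (rel x j) + han x j) j
    refine ⟨?_, ?_⟩
    · have h3 := rel_han_le x j
      have h4 := travel_le_WW x p j
      refine h1.trans ?_
      have : (π.length + 1) * (2 * WW x) = π.length * (2 * WW x) + 2 * WW x := by ring
      omega
    · right
      rcases h2 with h2 | h2
      · rw [List.mem_cons]
        left
        exact h2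
      · exact List.mem_cons_of_mem _ h2

theorem poly_WW {x : α → Inst} (hx : NPC.Poly x) : NPC.Poly (fun a => WW (x a)) := by
  unfold WW
  fun_prop

theorem poly_completion : NPC.Poly (fun y : Inst × List ℕ => completion y.1 y.2) := by
  have hW : NPC.Poly (fun y : Inst × List ℕ => y.2.length * (2 * WW y.1)) := by
    have := poly_WW (x := fun y : Inst × List ℕ => y.1) (by fun_prop)
    fun_prop
  obtain ⟨q, hq⟩ := hW.sz_le
  have hf : NPC.Poly (fun y : Inst × List ℕ => y.2.foldl (step y.1) (0, y.1.2.1)) := by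
    refine NPC.Poly.foldl (l := fun y : Inst × List ℕ => y.2)
      (s := fun y : Inst × List ℕ => ((0, y.1.2.1) : ℕ × ℕ))
      (F := fun y s j => step y.1 s j) (by fun_prop) (by fun_prop) ?_
      (Polynomial.C 2 * q + Polynomial.X + Polynomial.C 1) ?_
    · unfold step
      fun_prop
    · intro y k hk
      simp only [Polynomial.eval_add, Polynomial.eval_mul, Polynomial.eval_C, Polynomial.eval_X]
      obtain ⟨h1, h2⟩ := foldl_le y.1 (y.2.take k) 0 y.1.2.1
      change sz ((y.2.take k).foldl (step y.1) (0, y.1.2.1)) ≤ _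
      rw [show sz ((y.2.take k).foldl (step y.1) (0, y.1.2.1)) =
        sz ((y.2.take k).foldl (step y.1) (0, y.1.2.1)).1 +
        sz ((y.2.take k).foldl (step y.1) (0, y.1.2.1)).2 + 1 from sz_pair _ _]
      have h3 : ((y.2.take k).foldl (step y.1) (0, y.1.2.1)).1 ≤ y.2.length * (2 * WW y.1) := by
        refine h1.trans ?_
        rw [zero_add]
        exact Nat.mul_le_mul_right _ (by rw [List.length_take]; omega)
      have h4 := sz_nat_mono_le h3
      have h5 := hq y
      have h6 : sz ((y.2.take k).foldl (step y.1) (0, y.1.2.1)).2 ≤ sz y := by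
        obtain ⟨⟨V, o, K⟩, π⟩ := y
        simp only [sz_pair]
        rcases h2 with h2 | h2
        · rw [h2]
          simp only
          omega
        · have := sz_le_of_mem (List.mem_of_mem_take h2)
          simp only at this ⊢
          omega
      omega
  have h2 : NPC.Poly (fun y : Inst × List ℕ => (y.2.foldl (step y.1) (0, y.1.2.1)).1 +
      travel y.1 (y.2.foldl (step y.1) (0, y.1.2.1)).2 y.1.2.1) := by
    fun_prop
  exact h2.congr fun y => (finish_foldl _ _ _ _).symm

/-- the checks of the verifier -/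
def Test (x : Inst) (π : List ℕ) : Prop :=
  (x.2.1 < x.1.length ∧ ∀ v ∈ x.1, 0 < v.2.1) ∧
    (π.length = x.1.length ∧ ∀ v ∈ List.range x.1.length, v ∈ π) ∧ completion x π ≤ x.2.2

theorem pp_test : PP (fun y : Inst × List ℕ => Test y.1 y.2) := by
  unfold Test
  refine PP.and (PP.and (PP.lt (by fun_prop) (by fun_prop)) ?_)
    (PP.and (PP.and (PP.eq (by fun_prop) (by fun_prop)) ?_)
      (PP.le poly_completion (by fun_prop)))
  · exact PP.ball (l := fun y : Inst × List ℕ => y.1.1) (r := fun _ v => 0 < v.2.1)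
      (by fun_prop) (PP.lt (by fun_prop) (by fun_prop))
  · exact PP.ball (l := fun y : Inst × List ℕ => List.range y.1.1.length)
      (r := fun y v => v ∈ y.2) (NPC.Poly.range_length (by fun_prop))
      (PP.mem (by fun_prop) (by fun_prop))

theorem test_iff (x : Inst) : PathVSP x ↔ ∃ π, Test x π := by
  unfold PathVSP Test
  constructor
  · rintro ⟨h0, hh, π, hπ, hK⟩
    refine ⟨π, ⟨h0, hh⟩, ⟨by rw [hπ.length_eq, List.length_range], ?_⟩, hK⟩
    intro v hv
    exact hπ.mem_iff.2 hv
  · rintro ⟨π, ⟨h0, hh⟩, ⟨hl, hm⟩, hK⟩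
    refine ⟨h0, hh, π, ?_, hK⟩
    symm
    refine List.Subperm.perm_of_length_le (List.subperm_of_subset List.nodup_range hm) ?_
    rw [hl, List.length_range]

/-- size of the certificates -/
theorem sz_perm_range {x : Inst} {π : List ℕ} (h : Test x π) :
    sz π ≤ sz (List.range x.1.length) := by
  obtain ⟨_, ⟨hl, hm⟩, _⟩ := h
  have hp : (List.range x.1.length).Perm π :=
    List.Subperm.perm_of_length_le (List.subperm_of_subset List.nodup_range hm)
      (by rw [hl, List.length_range])
  have key : ∀ {l l' : List ℕ}, l.Perm l' → sz l = sz l' := by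
    intro l l' h
    induction h with
    | nil => rfl
    | cons a _ ih => simp only [sz_list_cons, ih]
    | swap a b l => simp only [sz_list_cons]; omega
    | trans _ _ ih1 ih2 => rw [ih1, ih2]
  exact (key hp).ge

theorem inNPP_of_pp {Q : Inst → Prop} (hQ : PP Q) : InNPP (fun x => Q x ∧ PathVSP x) := by
  have hpp : PP (fun y : Inst × List ℕ => Q y.1 ∧ Test y.1 y.2) :=
    PP.and (hQ.comp (by fun_prop)) pp_test
  obtain ⟨R, hR, hR'⟩ := hpp
  have hrange : NPC.Poly (fun x : Inst => List.range x.1.length) :=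
    NPC.Poly.range_length (by fun_prop)
  obtain ⟨q, hq⟩ := hrange.sz_le
  refine inNPP_of hR q ?_
  intro x
  constructor
  · rintro ⟨hQx, hx⟩
    obtain ⟨π, hπ⟩ := (test_iff x).1 hx
    exact ⟨π, (sz_perm_range hπ).trans (hq x), (hR' (x, π)).2 ⟨hQx, hπ⟩⟩
  · rintro ⟨π, _, h⟩
    obtain ⟨hQx, hπ⟩ := (hR' (x, π)).1 h
    exact ⟨hQx, (test_iff x).2 ⟨π, hπ⟩⟩

theorem pp_special : PP Special := by
  unfold Special
  refine PP.and ?_ (PP.eq (by fun_prop) (by fun_prop))
  exact PP.ball (l := fun x : Inst => x.1) (r := fun _ v => 0 < v.2.2.1 ∧ v.2.2.1 = v.2.2.2)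
    (by fun_prop) (PP.and (PP.lt (by fun_prop) (by fun_prop)) (PP.eq (by fun_prop) (by fun_prop)))

theorem inNPP_PathVSP : InNPP PathVSP := by
  have h := inNPP_of_pp (Q := fun _ => True) ⟨fun _ => true, NPC.Poly.const _, fun _ => by simp⟩
  simpa using h

theorem inNPP_special : InNPP (fun x => Special x ∧ PathVSP x) := inNPP_of_pp pp_special

theorem hardI_special : HardI (fun x => Special x ∧ PathVSP x) := by
  intro L hL
  obtain ⟨g, hg, hs, h⟩ := hardPr_PathVSP L hL
  exact ⟨g, hg, fun x => (h x).trans ⟨fun h => ⟨hs x, h⟩, fun h => h.2⟩⟩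

end Pool.Agent.Q321.VS
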